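import Pool.Agent.Work.MP_36bee3_al.Hedge.Neg

/-!
The amalgamated quotients over which all Fischer classes are closed under subdirect products.

A class is a predicate `X` on groups. The five hypotheses on `X` say: members are finite and
soluble; `X` is closed under isomorphism; `X` contains the trivial group; `X` is `N₀`-closed;
`X` is `F`-closed. The right side says that `Q` is metanilpotent.
-/

namespace Pool.Agent.Results.MP_36bee3_al.AmalgamIff

open Pool.Agent.Work.MP_36bee3_al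

theorem result (Q : Type) [Group Q] [Finite Q] [Group.IsSolvable Q] :
    (∀ X : (G : Type) → [Group G] → Prop,
      (∀ (G : Type) [Group G], X G → Finite G ∧ Group.IsSolvable G) →
      (∀ (G H : Type) [Group G] [Group H], Nonempty (G ≃* H) → X G → X H) →
      (∀ (G : Type) [Group G], Subsingleton G → X G) →
      (∀ (G : Type) [Group G] [Finite G] [Group.IsSolvable G] (n : ℕ) (N : Fin n → Subgroup G),
        (∀ i, (N i).IsSubnormal ∧ X (N i)) → ⨆ i, N i = ⊤ → X G) →
      (∀ (H : Type) [Group H] (G : Subgroup H), X H →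
        Group.IsNilpotent (G ⧸ G.normalCore.subgroupOf G) → X G) →
      ∀ (G : Type) [Group G] [Finite G] [Group.IsSolvable G] (M₁ M₂ : Subgroup G)
        [M₁.Normal] [M₂.Normal], M₁ ⊓ M₂ = ⊥ → Nonempty (G ⧸ (M₁ ⊔ M₂) ≃* Q) →
        X (G ⧸ M₁) → X (G ⧸ M₂) → X G) ↔
    ∃ (K : Subgroup Q) (_ : K.Normal), Group.IsNilpotent K ∧ Group.IsNilpotent (Q ⧸ K) := by
  constructor
  · intro h
    by_contra hQ
    obtain ⟨X, hX, G, _, _, _, M₁, M₂, _, _, h1, h2, h3, h4, h5⟩ := exists_bad hQ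
    exact h5 (h X hX.fin hX.iso hX.triv hX.nz hX.fc G M₁ M₂ h1 h2 h3 h4)
  · rintro ⟨K, _, hK, hQ⟩ X h1 h2 h3 h4 h5 G _ _ _ M₁ M₂ _ _ hM ⟨e⟩ h6 h7
    exact Fis.subdirect ⟨h1, h2, h3, h4, h5⟩ M₁ M₂ hM e h6 h7 hK hQ

end Pool.Agent.Results.MP_36bee3_al.AmalgamIff
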