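import Pool.Agent.Work.MP_36bee3_al.Hedge.Three

/-!
A Fischer class of nilpotent length three that is not closed under subdirect products.

A class is a predicate `X` on groups. The parts of the statement say: members are finite and
soluble; `X` is closed under isomorphism; `X` contains the trivial group; `X` is `N₀`-closed;
`X` is `F`-closed; every member is a `p`-group extended by a `q`-group extended by an `r`-group;
some finite soluble group outside `X` has two central subgroups of order `p` with trivial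
intersection and both quotients in `X`.
-/

namespace Pool.Agent.Results.MP_36bee3_al.LengthThree

open Pool.Agent.Work.MP_36bee3_al

theorem result (p q r : ℕ) (hp : p.Prime) (hq : q.Prime) (hr : r.Prime) (hpq : p ≠ q)
    (hqr : q ≠ r) :
    ∃ X : (G : Type) → [Group G] → Prop,
      (∀ (G : Type) [Group G], X G → Finite G ∧ Group.IsSolvable G) ∧
      (∀ (G H : Type) [Group G] [Group H], Nonempty (G ≃* H) → X G → X H) ∧
      (∀ (G : Type) [Group G], Subsingleton G → X G) ∧
      (∀ (G : Type) [Group G] [Finite G] [Group.IsSolvable G] (n : ℕ) (N : Fin n → Subgroup G),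
        (∀ i, (N i).IsSubnormal ∧ X (N i)) → ⨆ i, N i = ⊤ → X G) ∧
      (∀ (H : Type) [Group H] (G : Subgroup H), X H →
        Group.IsNilpotent (G ⧸ G.normalCore.subgroupOf G) → X G) ∧
      (∀ (G : Type) [Group G], X G →
        ∃ (A B : Subgroup G) (_ : A.Normal) (_ : B.Normal), A ≤ B ∧ IsPGroup p A ∧
          IsPGroup q (B.map (QuotientGroup.mk' A)) ∧ IsPGroup r (G ⧸ B)) ∧
      ∃ (G : Type) (_ : Group G) (_ : Finite G) (_ : Group.IsSolvable G) (M₁ M₂ : Subgroup G)
        (_ : M₁.Normal) (_ : M₂.Normal),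
        M₁ ⊓ M₂ = ⊥ ∧ X (G ⧸ M₁) ∧ X (G ⧸ M₂) ∧ ¬ X G ∧
        M₁ ≤ Subgroup.center G ∧ M₂ ≤ Subgroup.center G ∧ Nat.card M₁ = p ∧ Nat.card M₂ = p := by
  obtain ⟨X, hX, h1, h2⟩ := exists_three hp hq hr hpq hqr
  exact ⟨X, hX.fin, hX.iso, hX.triv, hX.nz, hX.fc, h1, h2⟩

end Pool.Agent.Results.MP_36bee3_al.LengthThree
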